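import Pool.Agent.H3.SAW.B3

/-!
# One sample of the half-plane self-avoiding walk has a deterministic set of scaling limits

On the square, the triangular and the hexagonal grid (the latter two in all admissible positions),
almost surely, the set of all limits of the scaled infinite half-plane self-avoiding walk `s γ`
along sequences `s → 0`, in the space of the closed subsets of the Riemann sphere, is the same
deterministic set `L`. It is closed and connected, and every subsequential limit of the laws of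
`s γ` is carried by it.
-/

set_option autoImplicit false

namespace Pool.Agent.Results.MP_df1d0b_pr.DeterministicLimitSet

open Filter Topology MeasureTheory TopologicalSpace

/-- the square grid -/
def SqG : Set ℂ := {z | ∃ a b : ℤ, z = a + b * Complex.I}

/-- `e^{iπ/3}` -/
noncomputable def Om : ℂ := ⟨1 / 2, Real.sqrt 3 / 2⟩

/-- the triangular grid with edges of length one -/
def TriG : Set ℂ := {z | ∃ a b : ℤ, z = a + b * Om}

/-- the hexagonal grid with edges of length one (the triangular grid without the centres of the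
hexagons) -/
def HexG : Set ℂ := {z | ∃ a b : ℤ, (a - b) % 3 ≠ 2 ∧ z = a + b * Om}

/-- the grid `Λ` multiplied by `u` -/
def rot (u : ℂ) (Λ : Set ℂ) : Set ℂ := {z | ∃ w ∈ Λ, z = u * w}

/-- A horizontal line through a vertex never meets the relative interior of an edge which it does
not contain. The edges are the segments of length `r` between vertices. -/
def LineCond (Λ : Set ℂ) (r : ℝ) : Prop :=
  ∀ z ∈ Λ, ∀ w ∈ Λ, ∀ w' ∈ Λ, ‖w' - w‖ = r → ¬ (w.im < z.im ∧ z.im < w'.im)

/-- `Λ` is the square grid, or the triangular or the hexagonal grid with any size and in any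
admissible position with a vertex at `0`; `r` is the length of the edges -/
def Grid (Λ : Set ℂ) (r : ℝ) : Prop :=
  (Λ = SqG ∧ r = 1) ∨ ∃ u : ℂ, u ≠ 0 ∧ r = ‖u‖ ∧ (Λ = rot u TriG ∨ Λ = rot u HexG) ∧
    LineCond Λ r

/-- self-avoiding walks with `n` steps in the closed upper half-plane, starting at `0`, with steps of
length `r` between points of `Λ`; a walk is continued by its last point -/
def PW (Λ : Set ℂ) (r : ℝ) (n : ℕ) : Set (ℕ → ℂ) :=
  {γ | γ 0 = 0 ∧ (∀ i, γ i ∈ Λ ∧ 0 ≤ (γ i).im) ∧ (∀ i < n, ‖γ (i + 1) - γ i‖ = r) ∧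
    (∀ i ≤ n, ∀ j ≤ n, γ i = γ j → i = j) ∧ ∀ i, n ≤ i → γ i = γ n}

/-- the polygonal path through the points `γ 0, γ 1, ...` -/
def trace (γ : ℕ → ℂ) : Set ℂ := ⋃ i : ℕ, segment ℝ (γ i) (γ (i + 1))

/-- the path multiplied by `s`, as a closed subset of the Riemann sphere: the closure of the scaled
polygonal path -/
noncomputable def shape (s : ℝ) (γ : ℕ → ℂ) : NonemptyCompacts (OnePoint ℂ) where
  carrier := closure ((fun z : ℂ => (((s : ℂ) * z : ℂ) : OnePoint ℂ)) '' trace γ)
  isCompact' := isClosed_closure.isCompact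
  nonempty' := by
    refine Set.Nonempty.closure (Set.Nonempty.image _ ⟨γ 0, Set.mem_iUnion.2 ⟨0, ?_⟩⟩)
    exact left_mem_segment ℝ _ _

theorem result [MeasurableSpace (NonemptyCompacts (OnePoint ℂ))]
    [BorelSpace (NonemptyCompacts (OnePoint ℂ))] (Λ : Set ℂ) (r : ℝ) (hΛ : Grid Λ r) :
    ∃ μ : Measure (ℕ → ℂ), IsProbabilityMeasure μ ∧
      (∀ F : BoundedContinuousFunction (ℕ → ℂ) ℝ,
        Tendsto (fun n => (∑ᶠ γ ∈ PW Λ r n, F γ) / ((PW Λ r n).ncard : ℝ)) atTop
          (𝓝 (∫ γ, F γ ∂μ))) ∧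
      ∃ L : Set (NonemptyCompacts (OnePoint ℂ)), IsClosed L ∧ IsConnected L ∧
        (∀ᵐ γ ∂μ, {K | MapClusterPt K (𝓝[>] (0 : ℝ)) (fun s => shape s γ)} = L) ∧
        ∀ (P : Measure (NonemptyCompacts (OnePoint ℂ))) (t : ℕ → ℝ), IsProbabilityMeasure P →
          Tendsto t atTop (𝓝[>] 0) →
          (∀ F : C(NonemptyCompacts (OnePoint ℂ), ℝ),
            Tendsto (fun k => ∫ γ, F (shape (t k) γ) ∂μ) atTop (𝓝 (∫ K, F K ∂P))) → P L = 1 :=
  Pool.Agent.H3.SAW.quenched hΛ

end Pool.Agent.Results.MP_df1d0b_pr.DeterministicLimitSet
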