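import Pool.Agent.H3.SAW.B1

/-!
# The scaling limits of the half-plane self-avoiding walk do not depend on conditioning

On the square, the triangular and the hexagonal grid (the latter two in all admissible positions)
the infinite half-plane self-avoiding walk `γ`, scaled by `s`, is asymptotically independent of `γ`
as `s → 0`: if the law `μ` of `γ` is replaced by any probability measure which is absolutely
continuous with respect to `μ` (for instance if it is conditioned on any event of positive
probability) then the law of `s γ`, as a random closed subset of the Riemann sphere, changes by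
something which tends to `0` weakly as `s → 0`.
-/

set_option autoImplicit false

namespace Pool.Agent.Results.MP_df1d0b_pr.ForgetsConditioning

open Filter Topology MeasureTheory TopologicalSpace

/-- the square grid -/
def SqG : Set ℂ := {z | ∃ a b : ℤ, z = a + b * Complex.I}

/-- `e^{iπ/3}` -/
noncomputable def Om : ℂ := ⟨1 / 2, Real.sqrt 3 / 2⟩

/-- the triangular grid with edges of length one -/
def TriG : Set ℂ := {z | ∃ a b : ℤ, z = a + b * Om}

/-- the hexagonal grid with edges of length one (the triangular grid without the centres of the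
hexagons) -/
def HexG : Set ℂ := {z | ∃ a b : ℤ, (a - b) % 3 ≠ 2 ∧ z = a + b * Om}

/-- the grid `Λ` multiplied by `u` -/
def rot (u : ℂ) (Λ : Set ℂ) : Set ℂ := {z | ∃ w ∈ Λ, z = u * w}

/-- A horizontal line through a vertex never meets the relative interior of an edge which it does
not contain. The edges are the segments of length `r` between vertices. -/
def LineCond (Λ : Set ℂ) (r : ℝ) : Prop :=
  ∀ z ∈ Λ, ∀ w ∈ Λ, ∀ w' ∈ Λ, ‖w' - w‖ = r → ¬ (w.im < z.im ∧ z.im < w'.im)

/-- `Λ` is the square grid, or the triangular or the hexagonal grid with any size and in any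
admissible position with a vertex at `0`; `r` is the length of the edges -/
def Grid (Λ : Set ℂ) (r : ℝ) : Prop :=
  (Λ = SqG ∧ r = 1) ∨ ∃ u : ℂ, u ≠ 0 ∧ r = ‖u‖ ∧ (Λ = rot u TriG ∨ Λ = rot u HexG) ∧
    LineCond Λ r

/-- self-avoiding walks with `n` steps in the closed upper half-plane, starting at `0`, with steps of
length `r` between points of `Λ`; a walk is continued by its last point -/
def PW (Λ : Set ℂ) (r : ℝ) (n : ℕ) : Set (ℕ → ℂ) :=
  {γ | γ 0 = 0 ∧ (∀ i, γ i ∈ Λ ∧ 0 ≤ (γ i).im) ∧ (∀ i < n, ‖γ (i + 1) - γ i‖ = r) ∧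
    (∀ i ≤ n, ∀ j ≤ n, γ i = γ j → i = j) ∧ ∀ i, n ≤ i → γ i = γ n}

/-- the polygonal path through the points `γ 0, γ 1, ...` -/
def trace (γ : ℕ → ℂ) : Set ℂ := ⋃ i : ℕ, segment ℝ (γ i) (γ (i + 1))

/-- the path multiplied by `s`, as a closed subset of the Riemann sphere: the closure of the scaled
polygonal path -/
noncomputable def shape (s : ℝ) (γ : ℕ → ℂ) : NonemptyCompacts (OnePoint ℂ) where
  carrier := closure ((fun z : ℂ => (((s : ℂ) * z : ℂ) : OnePoint ℂ)) '' trace γ)
  isCompact' := isClosed_closure.isCompact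
  nonempty' := by
    refine Set.Nonempty.closure (Set.Nonempty.image _ ⟨γ 0, Set.mem_iUnion.2 ⟨0, ?_⟩⟩)
    exact left_mem_segment ℝ _ _

theorem result (Λ : Set ℂ) (r : ℝ) (hΛ : Grid Λ r) :
    ∃ μ : Measure (ℕ → ℂ), IsProbabilityMeasure μ ∧
      (∀ F : BoundedContinuousFunction (ℕ → ℂ) ℝ,
        Tendsto (fun n => (∑ᶠ γ ∈ PW Λ r n, F γ) / ((PW Λ r n).ncard : ℝ)) atTop
          (𝓝 (∫ γ, F γ ∂μ))) ∧
      ∀ F : C(NonemptyCompacts (OnePoint ℂ), ℝ),
        (∀ s, Measurable (fun γ => F (shape s γ))) ∧
        ∀ ν : Measure (ℕ → ℂ), IsProbabilityMeasure ν → ν ≪ μ →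
          Tendsto (fun s : ℝ => ∫ γ, F (shape s γ) ∂ν - ∫ γ, F (shape s γ) ∂μ) (𝓝[>] 0) (𝓝 0) :=
  Pool.Agent.H3.SAW.forgets hΛ

end Pool.Agent.Results.MP_df1d0b_pr.ForgetsConditioning
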