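import Pool.Agent.H3.SAW.B5

/-!
# The limit directions of the infinite half-plane self-avoiding walk on the hexagonal grid

On the hexagonal grid with an edge at the start perpendicular to the boundary, the set of the limit
points of the directions `γ n / |γ n|` of the infinite half-plane self-avoiding walk is, almost
surely, one deterministic arc of the upper half circle, symmetric with respect to the imaginary axis
and not reduced to a point. In particular, almost surely, the walk has no asymptotic direction.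
-/

set_option autoImplicit false

namespace Pool.Agent.Results.MP_df1d0b_pr.LimitDirections

open Filter Topology MeasureTheory

/-- `e^{iπ/3}` -/
noncomputable def Om : ℂ := ⟨1 / 2, Real.sqrt 3 / 2⟩

/-- the hexagonal grid with edges of length one (the triangular grid without the centres of the
hexagons) -/
def HexG : Set ℂ := {z | ∃ a b : ℤ, (a - b) % 3 ≠ 2 ∧ z = a + b * Om}

/-- the grid `Λ` multiplied by `u` -/
def rot (u : ℂ) (Λ : Set ℂ) : Set ℂ := {z | ∃ w ∈ Λ, z = u * w}

/-- self-avoiding walks with `n` steps in the closed upper half-plane, starting at `0`, with steps of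
length `r` between points of `Λ`; a walk is continued by its last point -/
def PW (Λ : Set ℂ) (r : ℝ) (n : ℕ) : Set (ℕ → ℂ) :=
  {γ | γ 0 = 0 ∧ (∀ i, γ i ∈ Λ ∧ 0 ≤ (γ i).im) ∧ (∀ i < n, ‖γ (i + 1) - γ i‖ = r) ∧
    (∀ i ≤ n, ∀ j ≤ n, γ i = γ j → i = j) ∧ ∀ i, n ≤ i → γ i = γ n}

theorem result (u : ℂ) (hu : u ≠ 0) (hv : ∃ z ∈ rot u HexG, ‖z‖ = ‖u‖ ∧ z.re = 0) :
    ∃ μ : Measure (ℕ → ℂ), IsProbabilityMeasure μ ∧
      (∀ F : BoundedContinuousFunction (ℕ → ℂ) ℝ,
        Tendsto (fun n => (∑ᶠ γ ∈ PW (rot u HexG) ‖u‖ n, F γ) /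
          ((PW (rot u HexG) ‖u‖ n).ncard : ℝ)) atTop (𝓝 (∫ γ, F γ ∂μ))) ∧
      ∃ a : ℝ, 1 / 200 ≤ a ∧ a ≤ 1 ∧
        ∀ᵐ γ ∂μ, {w : ℂ | MapClusterPt w atTop (fun n => γ n / ‖γ n‖)} =
          {w | ‖w‖ = 1 ∧ 0 ≤ w.im ∧ |w.re| ≤ a} :=
  Pool.Agent.H3.SAW.directions u hu hv

end Pool.Agent.Results.MP_df1d0b_pr.LimitDirections
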