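import Pool.Agent.H3.SAW.B9

/-!
# The scaling limit of the half-plane self-avoiding walk does not depend on the shape of the boundary

`D` is a set of vertices of the closed half-plane (of the square, the triangular or the hexagonal
grid) which contains all vertices above some height: a half-plane with an arbitrary rough boundary
or with arbitrary obstacles near the boundary. `v` is a vertex of `D` which is joined to the boundary
point `0` by a path outside `D`, and which is joined to infinity in `D`. Then the uniform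
`n`-step self-avoiding walks in `D` from `v` converge to an infinite walk, and the infinite walk has
the same scaling limits as the infinite half-plane self-avoiding walk.
-/

set_option autoImplicit false

namespace Pool.Agent.Results.MP_df1d0b_pr.RoughBoundary

open Filter Topology MeasureTheory TopologicalSpace

/-- the square grid -/
def SqG : Set ℂ := {z | ∃ a b : ℤ, z = a + b * Complex.I}

/-- `e^{iπ/3}` -/
noncomputable def Om : ℂ := ⟨1 / 2, Real.sqrt 3 / 2⟩

/-- the triangular grid with edges of length one -/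
def TriG : Set ℂ := {z | ∃ a b : ℤ, z = a + b * Om}

/-- the hexagonal grid with edges of length one (the triangular grid without the centres of the
hexagons) -/
def HexG : Set ℂ := {z | ∃ a b : ℤ, (a - b) % 3 ≠ 2 ∧ z = a + b * Om}

/-- the grid `Λ` multiplied by `u` -/
def rot (u : ℂ) (Λ : Set ℂ) : Set ℂ := {z | ∃ w ∈ Λ, z = u * w}

/-- A horizontal line through a vertex never meets the relative interior of an edge which it does
not contain. The edges are the segments of length `r` between vertices. -/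
def LineCond (Λ : Set ℂ) (r : ℝ) : Prop :=
  ∀ z ∈ Λ, ∀ w ∈ Λ, ∀ w' ∈ Λ, ‖w' - w‖ = r → ¬ (w.im < z.im ∧ z.im < w'.im)

/-- `Λ` is the square grid, or the triangular or the hexagonal grid with any size and in any
admissible position with a vertex at `0`; `r` is the length of the edges -/
def Grid (Λ : Set ℂ) (r : ℝ) : Prop :=
  (Λ = SqG ∧ r = 1) ∨ ∃ u : ℂ, u ≠ 0 ∧ r = ‖u‖ ∧ (Λ = rot u TriG ∨ Λ = rot u HexG) ∧
    LineCond Λ r

/-- self-avoiding walks with `n` steps in the closed upper half-plane, starting at `0`, with steps of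
length `r` between points of `Λ`; a walk is continued by its last point -/
def PW (Λ : Set ℂ) (r : ℝ) (n : ℕ) : Set (ℕ → ℂ) :=
  {γ | γ 0 = 0 ∧ (∀ i, γ i ∈ Λ ∧ 0 ≤ (γ i).im) ∧ (∀ i < n, ‖γ (i + 1) - γ i‖ = r) ∧
    (∀ i ≤ n, ∀ j ≤ n, γ i = γ j → i = j) ∧ ∀ i, n ≤ i → γ i = γ n}

/-- self-avoiding walks with `n` steps in `D`, starting at `v`, with steps of length `r`; a walk is
continued by its last point -/
def DW (r : ℝ) (D : Set ℂ) (v : ℂ) (n : ℕ) : Set (ℕ → ℂ) :=
  {γ | γ 0 = v ∧ (∀ i, γ i ∈ D) ∧ (∀ i < n, ‖γ (i + 1) - γ i‖ = r) ∧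
    (∀ i ≤ n, ∀ j ≤ n, γ i = γ j → i = j) ∧ ∀ i, n ≤ i → γ i = γ n}

/-- `D` is a set of vertices of the closed upper half-plane which contains all vertices of the grid
above some height; `β 0, ..., β m` is a self-avoiding path in the closed upper half-plane from `0` to
the vertex `v` of `D`, outside `D` before `v`; and `v` is joined in `D` to points of arbitrary
height. -/
structure Rough (Λ : Set ℂ) (r : ℝ) (D : Set ℂ) (v : ℂ) (m : ℕ) (β : ℕ → ℂ) : Prop where
  sub : ∀ z ∈ D, z ∈ Λ ∧ 0 ≤ z.im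
  high : ∃ M : ℝ, ∀ z ∈ Λ, M ≤ z.im → z ∈ D
  mem : v ∈ D
  start : β 0 = 0
  fin : β m = v
  out : ∀ i < m, β i ∈ Λ ∧ 0 ≤ (β i).im ∧ β i ∉ D
  step : ∀ i < m, ‖β (i + 1) - β i‖ = r
  inj : ∀ i ≤ m, ∀ j ≤ m, β i = β j → i = j
  up : ∀ R : ℝ, ∃ n : ℕ, ∃ γ ∈ DW r D v n, R ≤ (γ n).im

/-- the polygonal path through the points `γ 0, γ 1, ...` -/
def trace (γ : ℕ → ℂ) : Set ℂ := ⋃ i : ℕ, segment ℝ (γ i) (γ (i + 1))

/-- the path multiplied by `s`, as a closed subset of the Riemann sphere: the closure of the scaled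
polygonal path -/
noncomputable def shape (s : ℝ) (γ : ℕ → ℂ) : NonemptyCompacts (OnePoint ℂ) where
  carrier := closure ((fun z : ℂ => (((s : ℂ) * z : ℂ) : OnePoint ℂ)) '' trace γ)
  isCompact' := isClosed_closure.isCompact
  nonempty' := by
    refine Set.Nonempty.closure (Set.Nonempty.image _ ⟨γ 0, Set.mem_iUnion.2 ⟨0, ?_⟩⟩)
    exact left_mem_segment ℝ _ _

theorem result (Λ : Set ℂ) (r : ℝ) (hΛ : Grid Λ r) :
    ∃ μ : Measure (ℕ → ℂ), IsProbabilityMeasure μ ∧
      (∀ F : BoundedContinuousFunction (ℕ → ℂ) ℝ,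
        Tendsto (fun n => (∑ᶠ γ ∈ PW Λ r n, F γ) / ((PW Λ r n).ncard : ℝ)) atTop
          (𝓝 (∫ γ, F γ ∂μ))) ∧
      ∀ (D : Set ℂ) (v : ℂ) (m : ℕ) (β : ℕ → ℂ), Rough Λ r D v m β →
        ∃ ν : Measure (ℕ → ℂ), IsProbabilityMeasure ν ∧
          (∀ F : BoundedContinuousFunction (ℕ → ℂ) ℝ,
            Tendsto (fun n => (∑ᶠ γ ∈ DW r D v n, F γ) / ((DW r D v n).ncard : ℝ)) atTop
              (𝓝 (∫ γ, F γ ∂ν))) ∧
          ∀ F : C(NonemptyCompacts (OnePoint ℂ), ℝ),
            (∀ s, Measurable (fun γ => F (shape s γ))) ∧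
            Tendsto (fun s : ℝ => ∫ γ, F (shape s γ) ∂ν - ∫ γ, F (shape s γ) ∂μ)
              (𝓝[>] 0) (𝓝 0) := by
  obtain ⟨μ, h1, h2, h3⟩ := Pool.Agent.H3.SAW.rough_main hΛ
  exact ⟨μ, h1, h2, fun D v m β hR => h3 D v m β
    ⟨hR.sub, hR.high, hR.mem, hR.start, hR.fin, hR.out, hR.step, hR.inj, hR.up⟩⟩

end Pool.Agent.Results.MP_df1d0b_pr.RoughBoundary
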